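import Pool.Agent.H44.EQ.Targets

/-!
# Row JEX: existence of the set of the determining positions
-/

set_option autoImplicit false

namespace Pool.Agent.H37.EQ

open Pool.Agent.H44.EQ Pool.Agent.H53.GC Pool.Agent.H53.NR Pool.Agent.H68.BP Pool.Agent.H58.SF

/-- the block with the values of `w'` on the levels in `T` -/
def mixW {V : Type} (κ : Fin 6 → ℕ) (w w' : Fin 6 → V) (T : Finset ℕ) (l : Fin 6) : V :=
  if κ l ∈ T then w' l else w l

theorem mixZA {V X : Type} [LinearOrder V] {c : V → V → X} {N : X} {κ : Fin 6 → ℕ}
    {w w' : Fin 6 → V} (h : ZA c N κ w w') (T T' : Finset ℕ) :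
    ZA c N κ (mixW κ w w' T) (mixW κ w w' T') := by
  have hcase : ∀ (T : Finset ℕ) (l : Fin 6), mixW κ w w' T l = w l ∨ mixW κ w w' T l = w' l := by
    intro T l
    unfold mixW
    split_ifs
    · exact Or.inr rfl
    · exact Or.inl rfl
  have heq : ∀ (T : Finset ℕ) (l l' : Fin 6), κ l = κ l' →
      mixW κ w w' T l = mixW κ w w' T l' := by
    intro T l l' hl
    unfold mixW
    rw [hl]
    split_ifs
    · exact (h.eq l l' hl).2
    · exact (h.eq l l' hl).1
  have hlt : ∀ (T T' : Finset ℕ) (l l' : Fin 6), κ l < κ l' →
      mixW κ w w' T l < mixW κ w w' T' l' := by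
    intro T T' l l' hl
    obtain ⟨h1, h2, h3, h4⟩ := h.lt l l' hl
    rcases hcase T l with e | e <;> rcases hcase T' l' with e' | e' <;> rw [e, e'] <;> assumption
  have hfr : ∀ (T T' : Finset ℕ) (l l' : Fin 6), κ l < κ l' →
      c (mixW κ w w' T l) (mixW κ w w' T' l') = N := by
    intro T T' l l' hl
    obtain ⟨h1, h2, h3, h4⟩ := h.free l l' hl
    rcases hcase T l with e | e <;> rcases hcase T' l' with e' | e' <;> rw [e, e'] <;> assumption
  exact ⟨fun l l' hl => ⟨heq T l l' hl, heq T' l l' hl⟩,
    fun l l' hl => ⟨hlt T T l l' hl, hlt T T' l l' hl, hlt T' T l l' hl, hlt T' T' l l' hl⟩,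
    fun l l' hl => ⟨hfr T T l l' hl, hfr T T' l l' hl, hfr T' T l l' hl, hfr T' T' l l' hl⟩⟩

theorem pf_JEX (hH : T_CHN) (hE : T_EQV) : T_JEX := by
  intro σ V X _ 𝔸 M c N hS h hh hT κ
  have hfib : ∀ l l', κ l = κ l' →
      (∀ z z', ZA c N κ z z' → h z z' = none → z l = z' l) →
      (∀ z z', ZA c N κ z z' → h z z' = none → z l' = z' l') := by
    intro l l' hl hJ z z' hz hn
    obtain ⟨e1, e2⟩ := hz.eq l l' hl
    rw [← e1, ← e2]
    exact hJ z z' hz hn
  refine ⟨{l | ∀ z z', ZA c N κ z z' → h z z' = none → z l = z' l}, ?_, ?_⟩
  · intro l l' hl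
    exact ⟨hfib l l' hl, hfib l' l hl.symm⟩
  · intro w w' hw
    constructor
    · intro hn l hl
      exact hl w w' hw hn
    · intro hJ
      obtain ⟨-, htr⟩ := hE σ V X 𝔸 M c N hS (Fin 6) h hh
      have key : ∀ T : Finset ℕ, h w (mixW κ w w' T) = none := by
        intro T
        induction T using Finset.induction_on with
        | empty =>
          have e : mixW κ w w' ∅ = w := by
            funext l
            unfold mixW
            rw [if_neg (Finset.notMem_empty _)]
          rw [e]
          exact hh.refl w
        | insert i T hi ih =>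
          rw [htr _ _ _ ih]
          by_cases hB : ∃ l0, κ l0 = i ∧
              ¬ (∀ z z', ZA c N κ z z' → h z z' = none → z l0 = z' l0)
          · obtain ⟨l0, hl0, hn⟩ := hB
            push Not at hn
            obtain ⟨z, z', hz, hzn, hzne⟩ := hn
            refine hH σ V X 𝔸 M c N hS h hh hT κ z z' l0 hz hzn hzne _ _ (mixZA hw _ _) ?_
            intro l hl
            unfold mixW
            have e : (κ l ∈ insert i T) ↔ κ l ∈ T := by
              rw [Finset.mem_insert, hl0.symm]
              exact ⟨fun h1 => h1.resolve_left hl, Or.inr⟩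
            by_cases hc : κ l ∈ T
            · rw [if_pos hc, if_pos (e.2 hc)]
            · rw [if_neg hc, if_neg (fun h1 => hc (e.1 h1))]
          · push Not at hB
            have e : mixW κ w w' T = mixW κ w w' (insert i T) := by
              funext l
              unfold mixW
              by_cases hc : κ l ∈ T
              · rw [if_pos hc, if_pos (Finset.mem_insert_of_mem hc)]
              · rw [if_neg hc]
                by_cases hi' : κ l = i
                · rw [if_pos (by rw [hi']; exact Finset.mem_insert_self i T)]
                  exact hJ l (hB l hi')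
                · rw [if_neg (fun h1 => by
                    rcases Finset.mem_insert.1 h1 with h2 | h2
                    · exact hi' h2
                    · exact hc h2)]
            rw [← e]
            exact hh.refl _
      have e : mixW κ w w' (Finset.univ.image κ) = w' := by
        funext l
        unfold mixW
        rw [if_pos (Finset.mem_image_of_mem κ (Finset.mem_univ l))]
      have := key (Finset.univ.image κ)
      rwa [e] at this

end Pool.Agent.H37.EQ
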