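import Pool.Agent.H57.EQ.Targets

/-!
# Iteration of a binary polymorphism
-/

set_option autoImplicit false

namespace Pool.Agent.H37.EQM

open Pool.Agent.H57.EQ Pool.Agent.H68.BP Pool.Agent.H58.SF Pool.Agent.H53.GC

theorem itr_fin {σ : Sig} {Y : Type} (𝕐 : Str σ (Option Y)) (g : (Fin 2 → Option Y) → Option Y)
    (hg : IsPoly 𝕐 𝕐 g) (hn : ∀ z, g z = none ↔ ∀ i, z i = none) (n : ℕ) :
    ∃ G : (Fin (n + 1) → Option Y) → Option Y, IsPoly 𝕐 𝕐 G ∧ ∀ z, G z = none ↔ ∀ i, z i = none := by
  induction n with
  | zero =>
    refine ⟨fun z => z 0, fun l x hx => hx 0, fun z => ⟨fun h i => ?_, fun h => h 0⟩⟩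
    have hi : i = 0 := Fin.ext (by have := i.2; omega)
    rw [hi]
    exact h
  | succ n ih =>
    obtain ⟨G, hG, hGn⟩ := ih
    refine ⟨fun z => g ![z 0, G (fun i => z i.succ)], ?_, ?_⟩
    · intro l x hx
      have h1 := hG l (fun i => x i.succ) (fun i => hx i.succ)
      have h2 := hg l ![x 0, fun a => G (fun i => x i.succ a)] (by
        intro i
        fin_cases i
        · exact hx 0
        · exact h1)
      have e : (fun a => g (fun i => (![x 0, fun a => G (fun i => x i.succ a)] : Fin 2 → _) i a))
          = fun a => g ![x 0 a, G (fun i => x i.succ a)] := by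
        funext a
        congr 1
        funext i
        fin_cases i <;> rfl
      rw [e] at h2
      exact h2
    · intro z
      rw [hn]
      constructor
      · intro h i
        refine Fin.cases ?_ (fun j => ?_) i
        · exact h 0
        · have h3 : G (fun i => z i.succ) = none := h 1
          exact (hGn _).1 h3 j
      · intro h i
        fin_cases i
        · exact h 0
        · exact (hGn _).2 (fun j => h j.succ)

theorem pf_ITR : T_ITR := by
  intro σ Y 𝕐 g hg hn I _ _
  obtain ⟨n, ⟨e⟩⟩ := Finite.exists_equiv_fin I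
  cases n with
  | zero =>
    exact (Fin.elim0 (e (Classical.arbitrary I)))
  | succ n =>
    obtain ⟨G, hG, hGn⟩ := itr_fin 𝕐 g hg hn n
    refine ⟨fun z => G (fun i => z (e.symm i)), ?_, ?_⟩
    · intro l x hx
      exact hG l (fun i => x (e.symm i)) (fun i => hx (e.symm i))
    · intro z
      rw [hGn]
      constructor
      · intro h i
        have := h (e i)
        rwa [e.symm_apply_apply] at this
      · intro h i
        exact h _

end Pool.Agent.H37.EQM
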